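import Pool.Agent.H2.MulTab

set_option autoImplicit false

namespace Pool.Agent.Results.MP_c34da8_nt.TwoClasses

open Filter Pool.Agent.H2.MulTab

/-- `D_f` for the partition of the positive integers into the classes `A` and `B`. -/
def D (f : ℕ → ℝ) (A B : Set ℕ) : Set ℕ :=
  {n | ∃ a a' : ℕ, n = a * a' ∧ ((a ∈ A ∧ a' ∈ A) ∨ (a ∈ B ∧ a' ∈ B)) ∧ f n < ((min a a' : ℕ) : ℝ)}

/-- lower asymptotic density -/
noncomputable def lowerDensity (X : Set ℕ) : ℝ :=
  liminf (fun M : ℕ => ((X ∩ Set.Icc 1 M).ncard : ℝ) / M) atTop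

theorem step (f : ℕ → ℝ) (hf : Tendsto f atTop atTop) (j K : ℕ) :
    ∃ N : ℕ, K * K < N ∧ K < N ∧ ∃ L : ℕ, (∀ n, L ≤ n → ((K * K : ℕ) : ℝ) ≤ f n) ∧
      (L : ℝ) + (T N).card ≤ 1 / (j + 1 : ℝ) * (N : ℝ) ^ 2 := by
  obtain ⟨L, hL⟩ := eventually_atTop.1 (hf.eventually_ge_atTop ((K * K : ℕ) : ℝ))
  obtain ⟨N, hN, hT⟩ := table (1 / (j + 1 : ℝ) / 2) (by positivity)
    (K * K + K + L * (2 * (j + 1)))
  refine ⟨N, by omega, by omega, L, hL, ?_⟩
  have h1 : ((L * (2 * (j + 1)) : ℕ) : ℝ) ≤ N := by exact_mod_cast (by omega)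
  have h2 : (1 : ℝ) ≤ N := by exact_mod_cast (by omega)
  push_cast at h1
  have h3 : (L : ℝ) ≤ 1 / (j + 1 : ℝ) / 2 * (N : ℝ) ^ 2 := by
    rw [div_div, div_mul_eq_mul_div, le_div_iff₀ (by positivity)]
    nlinarith
  linarith

theorem result (f : ℕ → ℝ) (hf : Tendsto f atTop atTop) :
    ∃ A B : Set ℕ, Disjoint A B ∧ A ∪ B = {n | 1 ≤ n} ∧ lowerDensity (D f A B) = 0 := by
  classical
  choose g hg1 hg2 L hL hLT using step f hf
  let N : ℕ → ℕ := fun j => Nat.rec 1 (fun j K => g j K) j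
  have hNs : ∀ j, N (j + 1) = g j (N j) := fun j => rfl
  have hmono : StrictMono N := strictMono_nat_of_lt_succ fun j => by rw [hNs]; exact hg2 j _
  have hN0 : ∀ j, 0 < N j := fun j => lt_of_lt_of_le one_pos (hmono.monotone (Nat.zero_le j))
  let A : Set ℕ := {a | ∃ j, N j < a ∧ a ≤ N j * N j}
  have hA : A ⊆ {n | 1 ≤ n} := by rintro a ⟨j, h1, -⟩; simp only [Set.mem_setOf_eq]; omega
  refine ⟨A, {n | 1 ≤ n} \ A, Set.disjoint_sdiff_right, Set.union_diff_cancel hA, ?_⟩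
  set X := D f A ({n | 1 ≤ n} \ A)
  have key : ∀ j, ((X ∩ Set.Icc 1 (N (j + 1) * N (j + 1))).ncard : ℝ) /
      ((N (j + 1) * N (j + 1) : ℕ) : ℝ) ≤ 1 / (j + 1 : ℝ) := by
    intro j
    have hsub : X ∩ Set.Icc 1 (N (j + 1) * N (j + 1)) ⊆
        ((Finset.range (L j (N j)) ∪ T (N (j + 1)) : Finset ℕ) : Set ℕ) := by
      rintro n ⟨⟨a, a', rfl, hc, hlt⟩, h1, h2⟩
      rw [Finset.coe_union]
      by_cases hn : a * a' < L j (N j)
      · left; simpa using hn
      right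
      have h3 := (hL j (N j) _ (not_lt.1 hn)).trans_lt hlt
      have h4 : N j * N j < min a a' := by exact_mod_cast h3
      have ha : N j * N j < a := lt_of_lt_of_le h4 (min_le_left _ _)
      have ha' : N j * N j < a' := lt_of_lt_of_le h4 (min_le_right _ _)
      have mem : ∀ b, N j * N j < b → b ≤ N (j + 1) * N (j + 1) → (b ∈ A ↔ N (j + 1) < b) := by
        intro b hb1 hb2
        refine ⟨?_, fun h => ⟨j + 1, h, hb2⟩⟩
        rintro ⟨i, hi1, hi2⟩
        rcases le_or_gt i j with hij | hij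
        · have := hmono.monotone hij
          have := Nat.mul_le_mul this this
          omega
        · exact lt_of_le_of_lt (hmono.monotone hij) hi1
      have b1 : a ≤ N (j + 1) * N (j + 1) := le_trans (Nat.le_mul_of_pos_right _ (by omega)) h2
      have b2 : a' ≤ N (j + 1) * N (j + 1) := le_trans (Nat.le_mul_of_pos_left _ (by omega)) h2
      rcases hc with ⟨c1, c2⟩ | ⟨c1, c2⟩
      · rw [mem _ ha b1] at c1
        rw [mem _ ha' b2] at c2
        have := Nat.mul_lt_mul'' c1 c2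
        omega
      · have d1 := not_lt.1 (mt (mem _ ha b1).2 c1.2)
        have d2 := not_lt.1 (mt (mem _ ha' b2).2 c2.2)
        simp only [T, Finset.coe_image, Set.mem_image, Finset.mem_coe, Finset.mem_product,
          Finset.mem_Ioc]
        exact ⟨(a, a'), ⟨⟨by simp; omega, d1⟩, ⟨by simp; omega, d2⟩⟩, rfl⟩
    have h1 := Set.ncard_le_ncard hsub (Finset.finite_toSet _)
    rw [Set.ncard_coe_finset] at h1
    have h2 := h1.trans (Finset.card_union_le _ _)
    rw [Finset.card_range] at h2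
    have h3 : ((X ∩ Set.Icc 1 (N (j + 1) * N (j + 1))).ncard : ℝ) ≤
        L j (N j) + (T (N (j + 1))).card := by exact_mod_cast h2
    have h4 := hLT j (N j)
    rw [← hNs] at h4
    have h5 : (0 : ℝ) < ((N (j + 1) * N (j + 1) : ℕ) : ℝ) := by
      exact_mod_cast Nat.mul_pos (hN0 (j + 1)) (hN0 (j + 1))
    rw [div_le_iff₀ h5, Nat.cast_mul, ← sq ((N (j + 1) : ℕ) : ℝ)]
    linarith
  have hb : IsBoundedUnder (· ≥ ·) atTop
      (fun M : ℕ => ((X ∩ Set.Icc 1 M).ncard : ℝ) / M) :=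
    isBoundedUnder_of ⟨0, fun M => by positivity⟩
  have hfreq : ∀ ε : ℝ, 0 < ε →
      ∃ᶠ M : ℕ in atTop, ((X ∩ Set.Icc 1 M).ncard : ℝ) / M ≤ ε := by
    intro ε hε
    rw [frequently_atTop]
    intro M0
    obtain ⟨k, hk⟩ := exists_nat_one_div_lt hε
    refine ⟨N (M0 + k + 1) * N (M0 + k + 1), ?_, (key _).trans (le_trans ?_ hk.le)⟩
    · have h1 : M0 + k + 1 ≤ N (M0 + k + 1) := hmono.id_le _
      have := Nat.le_mul_of_pos_right (N (M0 + k + 1)) (hN0 (M0 + k + 1))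
      omega
    · refine one_div_le_one_div_of_le (by positivity) ?_
      push_cast; linarith [Nat.cast_nonneg (α := ℝ) M0]
  refine le_antisymm (le_of_forall_pos_le_add fun ε hε => ?_) ?_
  · rw [zero_add]
    exact liminf_le_of_frequently_le (hfreq ε hε) hb
  · refine le_liminf_of_le (IsCoboundedUnder.of_frequently_le (hfreq 1 one_pos)) ?_
    exact Eventually.of_forall fun M => by positivity

end Pool.Agent.Results.MP_c34da8_nt.TwoClasses
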